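import Pool.Agent.H61.Gom.G.SA0
import Pool.Agent.H61.Gom.G.SA1
import Pool.Agent.H61.Gom.G.SA2

set_option linter.all false
set_option maxRecDepth 1000000

namespace Pool.Agent.H61.Gom

/-- the states of the family A -/
noncomputable def tbA : Tr :=
  (Tr.nd (Tr.nd (Tr.nd (Tr.nd tA0 tA64 tA128 tA192) (Tr.nd tA16 tA80 tA144 tA208) (Tr.nd tA32 tA96 tA160 tA224) (Tr.nd tA48 tA112 tA176 tA240)) (Tr.nd (Tr.nd tA4 tA68 tA132 tA196) (Tr.nd tA20 tA84 tA148 tA212) (Tr.nd tA36 tA100 tA164 tA228) (Tr.nd tA52 tA116 tA180 tA244)) (Tr.nd (Tr.nd tA8 tA72 tA136 tA200) (Tr.nd tA24 tA88 tA152 tA216) (Tr.nd tA40 tA104 tA168 tA232) (Tr.nd tA56 tA120 tA184 tA248)) (Tr.nd (Tr.nd tA12 tA76 tA140 tA204) (Tr.nd tA28 tA92 tA156 tA220) (Tr.nd tA44 tA108 tA172 tA236) (Tr.nd tA60 tA124 tA188 tA252))) (Tr.nd (Tr.nd (Tr.nd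 tA1 tA65 tA129 tA193) (Tr.nd tA17 tA81 tA145 tA209) (Tr.nd tA33 tA97 tA161 tA225) (Tr.nd tA49 tA113 tA177 tA241)) (Tr.nd (Tr.nd tA5 tA69 tA133 tA197) (Tr.nd tA21 tA85 tA149 tA213) (Tr.nd tA37 tA101 tA165 tA229) (Tr.nd tA53 tA117 tA181 tA245)) (Tr.nd (Tr.nd tA9 tA73 tA137 tA201) (Tr.nd tA25 tA89 tA153 tA217) (Tr.nd tA41 tA105 tA169 tA233) (Tr.nd tA57 tA121 tA185 tA249)) (Tr.nd (Tr.nd tA13 tA77 tA141 tA205) (Tr.nd tA29 tA93 tA157 tA221) (Tr.nd tA45 tA109 tA173 tA237) (Tr.nd tA61 tA125 tA189 tA253))) (Tr.nd (Tr.nd (Tr.nd tA2 tA66 tA130 tA194) (Tr.nd tA18 tA82 tA146 tA210) (Tr.nd tA34 tA98 tA162 tA226) (Tr.nd tA50 tA114 tA178 tA242)) (Tr.nd (Tr.nd tA6 tA70 tA134 tA198) (Tr.nd tA22 tA86 tA150 tA214) (Tr.nd tA38 tA102 tA166 tA230) (Tr.nd tA54 tA118 tA182 tA246)) (Tr.nd (Tr.nd tA10 tA74 tA138 tA202)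 (Tr.nd tA26 tA90 tA154 tA218) (Tr.nd tA42 tA106 tA170 tA234) (Tr.nd tA58 tA122 tA186 tA250)) (Tr.nd (Tr.nd tA14 tA78 tA142 tA206) (Tr.nd tA30 tA94 tA158 tA222) (Tr.nd tA46 tA110 tA174 tA238) (Tr.nd tA62 tA126 tA190 tA254))) (Tr.nd (Tr.nd (Tr.nd tA3 tA67 tA131 tA195) (Tr.nd tA19 tA83 tA147 tA211) (Tr.nd tA35 tA99 tA163 tA227) (Tr.nd tA51 tA115 tA179 tA243)) (Tr.nd (Tr.nd tA7 tA71 tA135 tA199) (Tr.nd tA23 tA87 tA151 tA215) (Tr.nd tA39 tA103 tA167 tA231) (Tr.nd tA55 tA119 tA183 tA247)) (Tr.nd (Tr.nd tA11 tA75 tA139 tA203) (Tr.nd tA27 tA91 tA155 tA219) (Tr.nd tA43 tA107 tA171 tA235) (Tr.nd tA59 tA123 tA187 tA251)) (Tr.nd (Tr.nd tA15 tA79 tA143 tA207) (Tr.nd tA31 tA95 tA159 tA223) (Tr.nd tA47 tA111 tA175 tA239) (Tr.nd tA63 tA127 tA191 tA255))))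

def nbA : Nat := 5278

end Pool.Agent.H61.Gom
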