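import Pool.Agent.H61.Gom.G.SB0

set_option linter.all false
set_option maxRecDepth 1000000

namespace Pool.Agent.H61.Gom

/-- the states of the family B -/
noncomputable def tbB : Tr :=
  (Tr.nd (Tr.nd (Tr.nd (Tr.nd tB0 tB64 tB128 tB192) (Tr.nd tB16 tB80 tB144 tB208) (Tr.nd tB32 tB96 tB160 tB224) (Tr.nd tB48 tB112 tB176 tB240)) (Tr.nd (Tr.nd tB4 tB68 tB132 tB196) (Tr.nd tB20 tB84 tB148 tB212) (Tr.nd tB36 tB100 tB164 tB228) (Tr.nd tB52 tB116 tB180 tB244)) (Tr.nd (Tr.nd tB8 tB72 tB136 tB200) (Tr.nd tB24 tB88 tB152 tB216) (Tr.nd tB40 tB104 tB168 tB232) (Tr.nd tB56 tB120 tB184 tB248)) (Tr.nd (Tr.nd tB12 tB76 tB140 tB204) (Tr.nd tB28 tB92 tB156 tB220) (Tr.nd tB44 tB108 tB172 tB236) (Tr.nd tB60 tB124 tB188 tB252))) (Tr.nd (Tr.nd (Tr.nd tB1 tB65 tB129 tB193) (Tr.nd tB17 tB81 tB145 tB209) (Tr.nd tB33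 tB97 tB161 tB225) (Tr.nd tB49 tB113 tB177 tB241)) (Tr.nd (Tr.nd tB5 tB69 tB133 tB197) (Tr.nd tB21 tB85 tB149 tB213) (Tr.nd tB37 tB101 tB165 tB229) (Tr.nd tB53 tB117 tB181 tB245)) (Tr.nd (Tr.nd tB9 tB73 tB137 tB201) (Tr.nd tB25 tB89 tB153 tB217) (Tr.nd tB41 tB105 tB169 tB233) (Tr.nd tB57 tB121 tB185 tB249)) (Tr.nd (Tr.nd tB13 tB77 tB141 tB205) (Tr.nd tB29 tB93 tB157 tB221) (Tr.nd tB45 tB109 tB173 tB237) (Tr.nd tB61 tB125 tB189 tB253))) (Tr.nd (Tr.nd (Tr.nd tB2 tB66 tB130 tB194) (Tr.nd tB18 tB82 tB146 tB210) (Tr.nd tB34 tB98 tB162 tB226) (Tr.nd tB50 tB114 tB178 tB242)) (Tr.nd (Tr.nd tB6 tB70 tB134 tB198) (Tr.nd tB22 tB86 tB150 tB214) (Tr.nd tB38 tB102 tB166 tB230) (Tr.nd tB54 tB118 tB182 tB246)) (Tr.nd (Tr.nd tB10 tB74 tB138 tB202) (Tr.nd tB26 tB90 tB154 tB218) (Tr.nd tB42 tB106 tB170 tB234)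 (Tr.nd tB58 tB122 tB186 tB250)) (Tr.nd (Tr.nd tB14 tB78 tB142 tB206) (Tr.nd tB30 tB94 tB158 tB222) (Tr.nd tB46 tB110 tB174 tB238) (Tr.nd tB62 tB126 tB190 tB254))) (Tr.nd (Tr.nd (Tr.nd tB3 tB67 tB131 tB195) (Tr.nd tB19 tB83 tB147 tB211) (Tr.nd tB35 tB99 tB163 tB227) (Tr.nd tB51 tB115 tB179 tB243)) (Tr.nd (Tr.nd tB7 tB71 tB135 tB199) (Tr.nd tB23 tB87 tB151 tB215) (Tr.nd tB39 tB103 tB167 tB231) (Tr.nd tB55 tB119 tB183 tB247)) (Tr.nd (Tr.nd tB11 tB75 tB139 tB203) (Tr.nd tB27 tB91 tB155 tB219) (Tr.nd tB43 tB107 tB171 tB235) (Tr.nd tB59 tB123 tB187 tB251)) (Tr.nd (Tr.nd tB15 tB79 tB143 tB207) (Tr.nd tB31 tB95 tB159 tB223) (Tr.nd tB47 tB111 tB175 tB239) (Tr.nd tB63 tB127 tB191 tB255))))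

def nbB : Nat := 2055

end Pool.Agent.H61.Gom
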