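import Pool.Agent.H61.Gom.G.SC0
import Pool.Agent.H61.Gom.G.SC1

set_option linter.all false
set_option maxRecDepth 1000000

namespace Pool.Agent.H61.Gom

/-- the states of the family C -/
noncomputable def tbC : Tr :=
  (Tr.nd (Tr.nd (Tr.nd (Tr.nd tC0 tC64 tC128 tC192) (Tr.nd tC16 tC80 tC144 tC208) (Tr.nd tC32 tC96 tC160 tC224) (Tr.nd tC48 tC112 tC176 tC240)) (Tr.nd (Tr.nd tC4 tC68 tC132 tC196) (Tr.nd tC20 tC84 tC148 tC212) (Tr.nd tC36 tC100 tC164 tC228) (Tr.nd tC52 tC116 tC180 tC244)) (Tr.nd (Tr.nd tC8 tC72 tC136 tC200) (Tr.nd tC24 tC88 tC152 tC216) (Tr.nd tC40 tC104 tC168 tC232) (Tr.nd tC56 tC120 tC184 tC248)) (Tr.nd (Tr.nd tC12 tC76 tC140 tC204) (Tr.nd tC28 tC92 tC156 tC220) (Tr.nd tC44 tC108 tC172 tC236) (Tr.nd tC60 tC124 tC188 tC252))) (Tr.nd (Tr.nd (Tr.nd tC1 tC65 tC129 tC193) (Tr.nd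 tC17 tC81 tC145 tC209) (Tr.nd tC33 tC97 tC161 tC225) (Tr.nd tC49 tC113 tC177 tC241)) (Tr.nd (Tr.nd tC5 tC69 tC133 tC197) (Tr.nd tC21 tC85 tC149 tC213) (Tr.nd tC37 tC101 tC165 tC229) (Tr.nd tC53 tC117 tC181 tC245)) (Tr.nd (Tr.nd tC9 tC73 tC137 tC201) (Tr.nd tC25 tC89 tC153 tC217) (Tr.nd tC41 tC105 tC169 tC233) (Tr.nd tC57 tC121 tC185 tC249)) (Tr.nd (Tr.nd tC13 tC77 tC141 tC205) (Tr.nd tC29 tC93 tC157 tC221) (Tr.nd tC45 tC109 tC173 tC237) (Tr.nd tC61 tC125 tC189 tC253))) (Tr.nd (Tr.nd (Tr.nd tC2 tC66 tC130 tC194) (Tr.nd tC18 tC82 tC146 tC210) (Tr.nd tC34 tC98 tC162 tC226) (Tr.nd tC50 tC114 tC178 tC242)) (Tr.nd (Tr.nd tC6 tC70 tC134 tC198) (Tr.nd tC22 tC86 tC150 tC214) (Tr.nd tC38 tC102 tC166 tC230) (Tr.nd tC54 tC118 tC182 tC246)) (Tr.nd (Tr.nd tC10 tC74 tC138 tC202) (Tr.nd tC26 tC90 tC154 tC218)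 (Tr.nd tC42 tC106 tC170 tC234) (Tr.nd tC58 tC122 tC186 tC250)) (Tr.nd (Tr.nd tC14 tC78 tC142 tC206) (Tr.nd tC30 tC94 tC158 tC222) (Tr.nd tC46 tC110 tC174 tC238) (Tr.nd tC62 tC126 tC190 tC254))) (Tr.nd (Tr.nd (Tr.nd tC3 tC67 tC131 tC195) (Tr.nd tC19 tC83 tC147 tC211) (Tr.nd tC35 tC99 tC163 tC227) (Tr.nd tC51 tC115 tC179 tC243)) (Tr.nd (Tr.nd tC7 tC71 tC135 tC199) (Tr.nd tC23 tC87 tC151 tC215) (Tr.nd tC39 tC103 tC167 tC231) (Tr.nd tC55 tC119 tC183 tC247)) (Tr.nd (Tr.nd tC11 tC75 tC139 tC203) (Tr.nd tC27 tC91 tC155 tC219) (Tr.nd tC43 tC107 tC171 tC235) (Tr.nd tC59 tC123 tC187 tC251)) (Tr.nd (Tr.nd tC15 tC79 tC143 tC207) (Tr.nd tC31 tC95 tC159 tC223) (Tr.nd tC47 tC111 tC175 tC239) (Tr.nd tC63 tC127 tC191 tC255))))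

def nbC : Nat := 2517

end Pool.Agent.H61.Gom
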