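import Pool.Agent.H61.Gom.G.SD0
import Pool.Agent.H61.Gom.G.SD1
import Pool.Agent.H61.Gom.G.SD2
import Pool.Agent.H61.Gom.G.SD3
import Pool.Agent.H61.Gom.G.SD4

set_option linter.all false
set_option maxRecDepth 1000000

namespace Pool.Agent.H61.Gom

/-- the states of the family D -/
noncomputable def tbD : Tr :=
  (Tr.nd (Tr.nd (Tr.nd (Tr.nd tD0 tD64 tD128 tD192) (Tr.nd tD16 tD80 tD144 tD208) (Tr.nd tD32 tD96 tD160 tD224) (Tr.nd tD48 tD112 tD176 tD240)) (Tr.nd (Tr.nd tD4 tD68 tD132 tD196) (Tr.nd tD20 tD84 tD148 tD212) (Tr.nd tD36 tD100 tD164 tD228) (Tr.nd tD52 tD116 tD180 tD244)) (Tr.nd (Tr.nd tD8 tD72 tD136 tD200) (Tr.nd tD24 tD88 tD152 tD216) (Tr.nd tD40 tD104 tD168 tD232) (Tr.nd tD56 tD120 tD184 tD248)) (Tr.nd (Tr.nd tD12 tD76 tD140 tD204) (Tr.nd tD28 tD92 tD156 tD220) (Tr.nd tD44 tD108 tD172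 tD236) (Tr.nd tD60 tD124 tD188 tD252))) (Tr.nd (Tr.nd (Tr.nd tD1 tD65 tD129 tD193) (Tr.nd tD17 tD81 tD145 tD209) (Tr.nd tD33 tD97 tD161 tD225) (Tr.nd tD49 tD113 tD177 tD241)) (Tr.nd (Tr.nd tD5 tD69 tD133 tD197) (Tr.nd tD21 tD85 tD149 tD213) (Tr.nd tD37 tD101 tD165 tD229) (Tr.nd tD53 tD117 tD181 tD245)) (Tr.nd (Tr.nd tD9 tD73 tD137 tD201) (Tr.nd tD25 tD89 tD153 tD217) (Tr.nd tD41 tD105 tD169 tD233) (Tr.nd tD57 tD121 tD185 tD249)) (Tr.nd (Tr.nd tD13 tD77 tD141 tD205) (Tr.nd tD29 tD93 tD157 tD221) (Tr.nd tD45 tD109 tD173 tD237) (Tr.nd tD61 tD125 tD189 tD253))) (Tr.nd (Tr.nd (Tr.nd tD2 tD66 tD130 tD194) (Tr.nd tD18 tD82 tD146 tD210) (Tr.nd tD34 tD98 tD162 tD226) (Tr.nd tD50 tD114 tD178 tD242)) (Tr.nd (Tr.nd tD6 tD70 tD134 tD198) (Tr.nd tD22 tD86 tD150 tD214) (Tr.nd tD38 tD102 tD166 tD230) (Tr.nd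 tD54 tD118 tD182 tD246)) (Tr.nd (Tr.nd tD10 tD74 tD138 tD202) (Tr.nd tD26 tD90 tD154 tD218) (Tr.nd tD42 tD106 tD170 tD234) (Tr.nd tD58 tD122 tD186 tD250)) (Tr.nd (Tr.nd tD14 tD78 tD142 tD206) (Tr.nd tD30 tD94 tD158 tD222) (Tr.nd tD46 tD110 tD174 tD238) (Tr.nd tD62 tD126 tD190 tD254))) (Tr.nd (Tr.nd (Tr.nd tD3 tD67 tD131 tD195) (Tr.nd tD19 tD83 tD147 tD211) (Tr.nd tD35 tD99 tD163 tD227) (Tr.nd tD51 tD115 tD179 tD243)) (Tr.nd (Tr.nd tD7 tD71 tD135 tD199) (Tr.nd tD23 tD87 tD151 tD215) (Tr.nd tD39 tD103 tD167 tD231) (Tr.nd tD55 tD119 tD183 tD247)) (Tr.nd (Tr.nd tD11 tD75 tD139 tD203) (Tr.nd tD27 tD91 tD155 tD219) (Tr.nd tD43 tD107 tD171 tD235) (Tr.nd tD59 tD123 tD187 tD251)) (Tr.nd (Tr.nd tD15 tD79 tD143 tD207) (Tr.nd tD31 tD95 tD159 tD223) (Tr.nd tD47 tD111 tD175 tD239) (Tr.nd tD63 tD127 tD191 tD255))))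

def nbD : Nat := 8274

end Pool.Agent.H61.Gom
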