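import Pool.Agent.H61.Gom.G.SE0

set_option linter.all false
set_option maxRecDepth 1000000

namespace Pool.Agent.H61.Gom

/-- the states of the family E -/
noncomputable def tbE : Tr :=
  (Tr.nd (Tr.nd (Tr.nd (Tr.nd tE0 tE64 tE128 tE192) (Tr.nd tE16 tE80 tE144 tE208) (Tr.nd tE32 tE96 tE160 tE224) (Tr.nd tE48 tE112 tE176 tE240)) (Tr.nd (Tr.nd tE4 tE68 tE132 tE196) (Tr.nd tE20 tE84 tE148 tE212) (Tr.nd tE36 tE100 tE164 tE228) (Tr.nd tE52 tE116 tE180 tE244)) (Tr.nd (Tr.nd tE8 tE72 tE136 tE200) (Tr.nd tE24 tE88 tE152 tE216) (Tr.nd tE40 tE104 tE168 tE232) (Tr.nd tE56 tE120 tE184 tE248)) (Tr.nd (Tr.nd tE12 tE76 tE140 tE204) (Tr.nd tE28 tE92 tE156 tE220) (Tr.nd tE44 tE108 tE172 tE236) (Tr.nd tE60 tE124 tE188 tE252))) (Tr.nd (Tr.nd (Tr.nd tE1 tE65 tE129 tE193) (Tr.nd tE17 tE81 tE145 tE209) (Tr.nd tE33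 tE97 tE161 tE225) (Tr.nd tE49 tE113 tE177 tE241)) (Tr.nd (Tr.nd tE5 tE69 tE133 tE197) (Tr.nd tE21 tE85 tE149 tE213) (Tr.nd tE37 tE101 tE165 tE229) (Tr.nd tE53 tE117 tE181 tE245)) (Tr.nd (Tr.nd tE9 tE73 tE137 tE201) (Tr.nd tE25 tE89 tE153 tE217) (Tr.nd tE41 tE105 tE169 tE233) (Tr.nd tE57 tE121 tE185 tE249)) (Tr.nd (Tr.nd tE13 tE77 tE141 tE205) (Tr.nd tE29 tE93 tE157 tE221) (Tr.nd tE45 tE109 tE173 tE237) (Tr.nd tE61 tE125 tE189 tE253))) (Tr.nd (Tr.nd (Tr.nd tE2 tE66 tE130 tE194) (Tr.nd tE18 tE82 tE146 tE210) (Tr.nd tE34 tE98 tE162 tE226) (Tr.nd tE50 tE114 tE178 tE242)) (Tr.nd (Tr.nd tE6 tE70 tE134 tE198) (Tr.nd tE22 tE86 tE150 tE214) (Tr.nd tE38 tE102 tE166 tE230) (Tr.nd tE54 tE118 tE182 tE246)) (Tr.nd (Tr.nd tE10 tE74 tE138 tE202) (Tr.nd tE26 tE90 tE154 tE218) (Tr.nd tE42 tE106 tE170 tE234)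 (Tr.nd tE58 tE122 tE186 tE250)) (Tr.nd (Tr.nd tE14 tE78 tE142 tE206) (Tr.nd tE30 tE94 tE158 tE222) (Tr.nd tE46 tE110 tE174 tE238) (Tr.nd tE62 tE126 tE190 tE254))) (Tr.nd (Tr.nd (Tr.nd tE3 tE67 tE131 tE195) (Tr.nd tE19 tE83 tE147 tE211) (Tr.nd tE35 tE99 tE163 tE227) (Tr.nd tE51 tE115 tE179 tE243)) (Tr.nd (Tr.nd tE7 tE71 tE135 tE199) (Tr.nd tE23 tE87 tE151 tE215) (Tr.nd tE39 tE103 tE167 tE231) (Tr.nd tE55 tE119 tE183 tE247)) (Tr.nd (Tr.nd tE11 tE75 tE139 tE203) (Tr.nd tE27 tE91 tE155 tE219) (Tr.nd tE43 tE107 tE171 tE235) (Tr.nd tE59 tE123 tE187 tE251)) (Tr.nd (Tr.nd tE15 tE79 tE143 tE207) (Tr.nd tE31 tE95 tE159 tE223) (Tr.nd tE47 tE111 tE175 tE239) (Tr.nd tE63 tE127 tE191 tE255))))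

def nbE : Nat := 1507

end Pool.Agent.H61.Gom
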